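import Pool.Agent.W857.CC.Stm

/-! # CC-REG: Szemerédi's regularity lemma, cleaned -/

set_option autoImplicit false

namespace Pool.Agent.W340.CC.Reg

open Finset Pool.Agent.W857.CC
open scoped Classical

variable {n : ℕ}

theorem eb_eq (G : SimpleGraph (Fin n)) (s t : Finset (Fin n)) : eb G s t = #(G.interedges s t) := by
  unfold eb SimpleGraph.interedges Rel.interedges
  rfl

theorem dens_mul (G : SimpleGraph (Fin n)) (s t : Finset (Fin n)) :
    ((G.edgeDensity s t : ℚ) : ℝ) * (#s * #t) = #(G.interedges s t) := by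
  rw [SimpleGraph.edgeDensity_def]
  by_cases h : (#s : ℝ) * #t = 0
  · have h1 := G.card_interedges_le_mul s t
    have h2 : #s * #t = 0 := by exact_mod_cast h
    rw [h2] at h1
    rw [h, mul_zero, Nat.le_zero.1 h1, Nat.cast_zero]
  · push_cast
    rw [div_mul_cancel₀ _ h]

theorem main : S_REG := by
  intro γ ε hε hεγ hγ
  have hγ0 : 0 < γ := lt_of_lt_of_le hε hεγ
  refine ⟨SzemerediRegularity.bound ε ⌈4 / ε⌉₊, ⌈4 / ε⌉₊ + 1, fun n hn G => ?_⟩
  obtain ⟨P, hPe, hPl, hPb, hPu⟩ := szemeredi_regularity G hε (l := ⌈4 / ε⌉₊)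
    (by rw [Fintype.card_fin]; omega)
  have hl : (4 / ε : ℝ) ≤ #P.parts := (Nat.le_ceil _).trans (by exact_mod_cast hPl)
  have hk1 : 1 ≤ #P.parts := by
    have h1 : (0 : ℝ) < #P.parts := lt_of_lt_of_le (by positivity) hl
    exact_mod_cast h1
  have hne : (univ : Finset (Fin n)).Nonempty := ⟨⟨0, by omega⟩, mem_univ _⟩
  let e : P.parts ≃ Fin (#P.parts) := P.parts.equivFin
  let U : Fin (#P.parts) → Finset (Fin n) := fun i => (e.symm i : Finset (Fin n))
  let part : Fin n → Fin (#P.parts) := fun v => e ⟨P.part v, P.part_mem.2 (mem_univ v)⟩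
  have hUp : ∀ i, U i ∈ P.parts := fun i => (e.symm i).2
  have hUpart : ∀ v, U (part v) = P.part v := fun v => by simp [U, part]
  have hcl : ∀ i, cl part i = U i := by
    intro i
    ext v
    simp only [cl, mem_filter, mem_univ, true_and]
    constructor
    · rintro rfl
      rw [hUpart]; exact P.mem_part (mem_univ v)
    · intro hv
      have h1 : P.part v = U i := P.part_eq_of_mem (hUp i) hv
      have h2 : U (part v) = U i := by rw [hUpart, h1]
      exact e.symm.injective (Subtype.ext h2)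
  have hUinj : ∀ i j, i ≠ j → U i ≠ U j := fun i j hij h => hij (e.symm.injective (Subtype.ext h))
  have hmemU : ∀ v, v ∈ U (part v) := fun v => by rw [hUpart]; exact P.mem_part (mem_univ v)
  have hsum : ∑ i, (#(U i) : ℝ) = n := by
    have h1 : ∑ i, #(U i) = n := by
      calc ∑ i, #(U i) = ∑ x : P.parts, #(x : Finset (Fin n)) :=
            Equiv.sum_comp e.symm (fun x : P.parts => #(x : Finset (Fin n)))
        _ = ∑ x ∈ P.parts, #x := Finset.sum_coe_sort P.parts (fun x => #x)
        _ = n := by rw [P.sum_card_parts, card_univ, Fintype.card_fin]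
    exact_mod_cast h1
  let R : SimpleGraph (Fin (#P.parts)) :=
    { Adj := fun i j => i ≠ j ∧ G.IsUniform ε (U i) (U j) ∧
        2 * γ ≤ ((G.edgeDensity (U i) (U j) : ℚ) : ℝ)
      symm := ⟨fun i j h => ⟨h.1.symm, h.2.1.symm, by rw [G.edgeDensity_comm]; exact h.2.2⟩⟩
      loopless := ⟨fun i h => h.1 rfl⟩ }
  refine ⟨#P.parts, hk1, hPb, part, R, ?_, ?_, ?_⟩
  · intro i
    rw [hcl]
    have h1 := hPe.average_le_card_part (hUp i)
    have h2 := hPe.card_part_le_average_add_one (hUp i)
    rw [card_univ, Fintype.card_fin] at h1 h2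
    have hkr : (0 : ℝ) < #P.parts := by exact_mod_cast hk1
    constructor
    · have h3 : (n : ℝ) / #P.parts < (n / #P.parts : ℕ) + 1 := by
        rw [div_lt_iff₀ hkr]
        have := Nat.lt_div_mul_add (a := n) (b := #P.parts) (by omega)
        have h4 : n < (n / #P.parts + 1) * #P.parts := by
          rw [add_mul, one_mul]; exact this
        exact_mod_cast h4
      have h4 : ((n / #P.parts : ℕ) : ℝ) ≤ #(U i) := by exact_mod_cast h1
      linarith
    · have h3 : ((n / #P.parts : ℕ) : ℝ) ≤ n / #P.parts := Nat.cast_div_le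
      have h4 : (#(U i) : ℝ) ≤ ((n / #P.parts : ℕ) : ℝ) + 1 := by exact_mod_cast h2
      linarith
  · rintro i j ⟨-, hu, hd⟩ s' hs' t' ht' hs ht
    rw [hcl] at hs' hs
    rw [hcl] at ht' ht
    have h1 := hu hs' ht' (by rw [mul_comm]; exact hs) (by rw [mul_comm]; exact ht)
    have h2 := (abs_lt.1 h1).1
    have h3 : γ ≤ ((G.edgeDensity s' t' : ℚ) : ℝ) := by linarith
    rw [eb_eq, ← dens_mul, mul_assoc]
    exact mul_le_mul_of_nonneg_right h3 (by positivity)
  · set C : Finset (Fin n × Fin n) :=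
      ((univ : Finset (Fin (#P.parts) × Fin (#P.parts))).filter
        (fun q => ((G.edgeDensity (U q.1) (U q.2) : ℚ) : ℝ) < 2 * γ)).biUnion
        (fun q => G.interedges (U q.1) (U q.2)) with hC
    have hCcard : (#C : ℝ) ≤ 2 * γ * n ^ 2 := by
      set F : Finset (Fin (#P.parts) × Fin (#P.parts)) :=
        (univ : Finset (Fin (#P.parts) × Fin (#P.parts))).filter
        (fun q => ((G.edgeDensity (U q.1) (U q.2) : ℚ) : ℝ) < 2 * γ) with hF
      have h1 : (#C : ℝ) ≤ ∑ q ∈ F, (#(G.interedges (U q.1) (U q.2)) : ℝ) := by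
        rw [hC]
        exact_mod_cast card_biUnion_le
      refine h1.trans ?_
      calc ∑ q ∈ F, (#(G.interedges (U q.1) (U q.2)) : ℝ)
          ≤ ∑ q ∈ F, 2 * γ * (#(U q.1) * #(U q.2)) := by
            refine sum_le_sum fun q hq => ?_
            rw [← dens_mul]
            exact mul_le_mul_of_nonneg_right (mem_filter.1 hq).2.le (by positivity)
        _ ≤ ∑ q : Fin (#P.parts) × Fin (#P.parts), 2 * γ * (#(U q.1) * #(U q.2)) :=
            sum_le_sum_of_subset_of_nonneg (filter_subset _ _) fun _ _ _ => by positivity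
        _ = 2 * γ * n ^ 2 := by
            rw [← mul_sum, Fintype.sum_prod_type]
            dsimp only
            rw [← Fintype.sum_mul_sum, hsum, sq]
    have hsub : (univ.filter fun p : Fin n × Fin n => G.Adj p.1 p.2 ∧
        ¬ R.Adj (part p.1) (part p.2)) ⊆
        P.parts.biUnion offDiag ∪ ((P.nonUniforms G ε).biUnion fun UV => UV.1 ×ˢ UV.2) ∪ C := by
      rintro ⟨a, b⟩ hab
      rw [mem_filter] at hab
      obtain ⟨-, hadj, hR⟩ := hab
      simp only [mem_union, mem_biUnion]
      by_cases h1 : part a = part b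
      · left; left
        refine ⟨U (part a), hUp _, mem_offDiag.2 ⟨hmemU a, ?_, hadj.ne⟩⟩
        show b ∈ U (part a)
        rw [h1]; exact hmemU b
      · by_cases h2 : G.IsUniform ε (U (part a)) (U (part b))
        · right
          have h3 : ¬ 2 * γ ≤ ((G.edgeDensity (U (part a)) (U (part b)) : ℚ) : ℝ) := fun h3 =>
            hR ⟨h1, h2, h3⟩
          rw [hC, mem_biUnion]
          refine ⟨(part a, part b), mem_filter.2 ⟨mem_univ _, not_le.1 h3⟩, ?_⟩
          rw [SimpleGraph.mem_interedges_iff]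
          exact ⟨hmemU a, hmemU b, hadj⟩
        · left; right
          refine ⟨(U (part a), U (part b)), ?_, mem_product.2 ⟨hmemU a, hmemU b⟩⟩
          rw [Finpartition.mk_mem_nonUniforms]
          exact ⟨hUp _, hUp _, hUinj _ _ h1, h2⟩
    have hA := hPe.card_biUnion_offDiag_le hε hl
    have hB := Finpartition.IsEquipartition.sum_nonUniforms_lt hne hε hPe hPu
    rw [card_univ, Fintype.card_fin] at hA hB
    have hcard : (#(univ.filter fun p : Fin n × Fin n => G.Adj p.1 p.2 ∧
        ¬ R.Adj (part p.1) (part p.2)) : ℝ) ≤ #(P.parts.biUnion offDiag) +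
        #((P.nonUniforms G ε).biUnion fun UV => UV.1 ×ˢ UV.2) + #C := by
      have h1 := (card_le_card hsub).trans ((card_union_le _ _).trans
        (Nat.add_le_add_right (card_union_le _ _) _))
      exact_mod_cast h1
    have hn2 : (0 : ℝ) ≤ (n : ℝ) ^ 2 := by positivity
    have hB' : (#((P.nonUniforms G ε).biUnion fun UV => UV.1 ×ˢ UV.2) : ℝ) ≤ 4 * ε * n ^ 2 := by
      exact_mod_cast hB.le
    have hA' : (#(P.parts.biUnion offDiag) : ℝ) ≤ ε / 2 * n ^ 2 := by exact_mod_cast hA
    have h5 := mul_le_mul_of_nonneg_right hεγ hn2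
    have h6 : 0 ≤ γ * (n : ℝ) ^ 2 := by positivity
    have h7 : (#(P.parts.biUnion offDiag) : ℝ) +
        #((P.nonUniforms G ε).biUnion fun UV => UV.1 ×ˢ UV.2) + #C ≤ 7 * γ * n ^ 2 := by
      linarith
    refine le_trans ?_ (hcard.trans h7)
    exact_mod_cast le_of_eq (congrArg card (by ext p; simp only [mem_filter]))

end Pool.Agent.W340.CC.Reg
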